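import Pool.Agent.Helper89.TT.Basic

set_option autoImplicit false

open Finset

namespace Pool.Agent.Helper89.TT

theorem sc_coef {k u v : ℤ} (hk : 1 ≤ k) (_hu : 1 ≤ u) (hv : 1 ≤ v) :
    (k * u ^ 2) ^ 2 ≤ (k * u * v) ^ 4 := by
  have h1 : 1 ≤ k ^ 2 * v ^ 4 := by
    have := one_le_pow₀ (n := 2) hk
    have := one_le_pow₀ (n := 4) hv
    nlinarith
  have h2 : 0 ≤ (k * u ^ 2) ^ 2 := sq_nonneg _
  calc (k * u ^ 2) ^ 2 ≤ (k * u ^ 2) ^ 2 * (k ^ 2 * v ^ 4) := by nlinarith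
    _ = (k * u * v) ^ 4 := by ring

theorem sc_part2 (x : ℕ) (A B C : ℤ) (h : Side x A B C) :
    |A| ≤ (x : ℤ) ^ 4 ∧ |B| ≤ 2 * (x : ℤ) ^ 4 ∧ |C| ≤ (x : ℤ) ^ 4 := by
  obtain ⟨k, u, v, rfl, hk, hu, hv, h⟩ := h
  push_cast
  have hk' : (1 : ℤ) ≤ k := by exact_mod_cast hk
  have hu' : (1 : ℤ) ≤ u := by exact_mod_cast hu
  have hv' : (1 : ℤ) ≤ v := by exact_mod_cast hv
  generalize (k : ℤ) = k at *
  generalize (u : ℤ) = u at *
  generalize (v : ℤ) = v at *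
  have c1 := sc_coef hk' hu' hv'
  have c2 := sc_coef hk' hv' hu'
  have e : k * v * u = k * u * v := by ring
  rw [e] at c2
  have c3 : (k * u * v) ^ 2 ≤ (k * u * v) ^ 4 := by
    have h1 : 1 ≤ k * u * v := by
      have := one_le_mul_of_one_le_of_one_le (one_le_mul_of_one_le_of_one_le hk' hu') hv'
      exact this
    exact pow_le_pow_right₀ h1 (by norm_num)
  have c4 : (k * (v ^ 2 - u ^ 2)) ^ 2 ≤ (k * u * v) ^ 4 := by
    have u1 := one_le_pow₀ (n := 2) hu'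
    have v1 := one_le_pow₀ (n := 2) hv'
    have k1 := one_le_pow₀ (n := 2) hk'
    have h1 : (v ^ 2 - u ^ 2) ^ 2 ≤ (u ^ 2 * v ^ 2) ^ 2 := by
      apply sq_le_sq'
      · nlinarith
      · nlinarith
    calc (k * (v ^ 2 - u ^ 2)) ^ 2 = k ^ 2 * (v ^ 2 - u ^ 2) ^ 2 := by ring
      _ ≤ k ^ 2 * (u ^ 2 * v ^ 2) ^ 2 := by nlinarith
      _ ≤ k ^ 2 * (u ^ 2 * v ^ 2) ^ 2 * k ^ 2 := by
        have : 0 ≤ k ^ 2 * (u ^ 2 * v ^ 2) ^ 2 := by positivity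
        nlinarith
      _ = (k * u * v) ^ 4 := by ring
  have c0 : 0 ≤ (k * u * v) ^ 4 := le_trans (sq_nonneg _) c1
  rcases h with ⟨rfl, rfl, rfl⟩ | ⟨rfl, rfl, rfl⟩ | ⟨rfl, rfl, rfl⟩
  · refine ⟨by simpa using c0, ?_, by simpa using c0⟩
    rw [abs_of_nonneg (sq_nonneg _)]
    linarith
  · refine ⟨by rw [abs_of_nonneg (sq_nonneg _)]; exact c1, ?_,
      by rw [abs_of_nonneg (sq_nonneg _)]; exact c2⟩
    have e2 : -2 * (k * u ^ 2) * (k * v ^ 2) = -(2 * (k * u * v) ^ 2) := by ring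
    rw [e2, abs_neg, abs_of_nonneg (by positivity)]
    linarith
  · refine ⟨by rw [abs_of_nonneg (sq_nonneg _)]; exact c2, ?_,
      by rw [abs_of_nonneg (sq_nonneg _)]; exact c1⟩
    have e2 : -2 * (k * u ^ 2) * (k * v ^ 2) = -(2 * (k * u * v) ^ 2) := by ring
    rw [e2, abs_neg, abs_of_nonneg (by positivity)]
    linarith

theorem sc_card (x : ℕ) (hx : 1 ≤ x) (S : Finset (ℤ × ℤ × ℤ))
    (h : ∀ s ∈ S, Side x s.1 s.2.1 s.2.2) : S.card ≤ 3 * x.divisors.card ^ 2 := by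
  classical
  let f1 : ℕ × ℕ → ℤ × ℤ × ℤ := fun p =>
    (0, ((p.1 : ℤ) * (((x / (p.1 * p.2) : ℕ) : ℤ) ^ 2 - (p.2 : ℤ) ^ 2)) ^ 2, 0)
  let f2 : ℕ × ℕ → ℤ × ℤ × ℤ := fun p =>
    (((p.1 : ℤ) * (p.2 : ℤ) ^ 2) ^ 2,
      -2 * ((p.1 : ℤ) * (p.2 : ℤ) ^ 2) * ((p.1 : ℤ) * ((x / (p.1 * p.2) : ℕ) : ℤ) ^ 2),
      ((p.1 : ℤ) * ((x / (p.1 * p.2) : ℕ) : ℤ) ^ 2) ^ 2)
  let f3 : ℕ × ℕ → ℤ × ℤ × ℤ := fun p =>
    (((p.1 : ℤ) * ((x / (p.1 * p.2) : ℕ) : ℤ) ^ 2) ^ 2,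
      -2 * ((p.1 : ℤ) * (p.2 : ℤ) ^ 2) * ((p.1 : ℤ) * ((x / (p.1 * p.2) : ℕ) : ℤ) ^ 2),
      ((p.1 : ℤ) * (p.2 : ℤ) ^ 2) ^ 2)
  let D := x.divisors ×ˢ x.divisors
  have hsub : S ⊆ D.image f1 ∪ (D.image f2 ∪ D.image f3) := by
    intro s hs
    obtain ⟨k, u, v, hx', hk, hu, hv, h⟩ := h s hs
    have hmem : (k, u) ∈ D := by
      rw [Finset.mem_product, Nat.mem_divisors, Nat.mem_divisors]
      exact ⟨⟨⟨u * v, by rw [← hx']; ring⟩, by omega⟩, ⟨⟨k * v, by rw [← hx']; ring⟩, by omega⟩⟩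
    have hv' : x / (k * u) = v := by
      rw [← hx']
      exact Nat.mul_div_cancel_left v (by positivity)
    obtain ⟨s1, s2, s3⟩ := s
    simp only at h
    rcases h with ⟨rfl, rfl, rfl⟩ | ⟨rfl, rfl, rfl⟩ | ⟨rfl, rfl, rfl⟩
    · refine Finset.mem_union_left _ (Finset.mem_image.2 ⟨(k, u), hmem, ?_⟩)
      simp only [f1, hv']
    · refine Finset.mem_union_right _ (Finset.mem_union_left _
        (Finset.mem_image.2 ⟨(k, u), hmem, ?_⟩))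
      simp only [f2, hv']
    · refine Finset.mem_union_right _ (Finset.mem_union_right _
        (Finset.mem_image.2 ⟨(k, u), hmem, ?_⟩))
      simp only [f3, hv']
  have hD : D.card = x.divisors.card ^ 2 := by
    rw [Finset.card_product, sq]
  calc S.card ≤ (D.image f1 ∪ (D.image f2 ∪ D.image f3)).card := Finset.card_le_card hsub
    _ ≤ (D.image f1).card + (D.image f2 ∪ D.image f3).card := Finset.card_union_le _ _
    _ ≤ (D.image f1).card + ((D.image f2).card + (D.image f3).card) := by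
      gcongr
      exact Finset.card_union_le _ _
    _ ≤ D.card + (D.card + D.card) := by
      gcongr <;> exact Finset.card_image_le
    _ = 3 * x.divisors.card ^ 2 := by rw [hD]; ring

theorem st_SC (h1 : ST_DV) : ST_SC := by
  refine ⟨fun ε hε => ?_, sc_part2⟩
  obtain ⟨C, hC, h⟩ := h1 (ε / 2) (by positivity) 1
  refine ⟨3 * C ^ 2, by nlinarith, fun N hN x hx hxN S hS => ?_⟩
  have h2 := h N hN x hx (by simpa using hxN)
  have h3 := sc_card x hx S hS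
  have h4 : (S.card : ℝ) ≤ 3 * (x.divisors.card : ℝ) ^ 2 := by exact_mod_cast h3
  have hN0 : (0 : ℝ) < N := by exact_mod_cast hN
  have h5 : ((N : ℝ) ^ (ε / 2)) ^ 2 = (N : ℝ) ^ ε := by
    rw [← Real.rpow_natCast, ← Real.rpow_mul hN0.le]
    norm_num
  calc (S.card : ℝ) ≤ 3 * (x.divisors.card : ℝ) ^ 2 := h4
    _ ≤ 3 * (C * (N : ℝ) ^ (ε / 2)) ^ 2 := by gcongr
    _ = 3 * C ^ 2 * (N : ℝ) ^ ε := by rw [mul_pow, h5]; ring

end Pool.Agent.Helper89.TT
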