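import Pool.Agent.Helper89.TT.Basic

set_option autoImplicit false

open Finset

namespace Pool.Agent.Helper89.TT

theorem st_SQ1 : ST_SQ1 := by
  intro x y K G hx hy hK hsq hG
  obtain ⟨s, P, hP, hs⟩ := Nat.sq_mul_squarefree x
  obtain ⟨r, hr⟩ := hsq
  have hs0 : 0 < s := Nat.pos_of_ne_zero (fun h => by subst h; simp at hP; omega)
  have hP0 : 0 < P := Nat.pos_of_ne_zero (fun h => by subst h; simp at hP; omega)
  have h1 : P ^ 2 ∣ r ^ 2 := ⟨s * y * K, by rw [sq r, ← hr, ← hP]; ring⟩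
  have h2 : P ∣ r := (Nat.pow_dvd_pow_iff (by norm_num)).1 h1
  obtain ⟨z, rfl⟩ := h2
  have h3 : s * y * K = z ^ 2 := by
    have : P ^ 2 * (s * y * K) = P ^ 2 * z ^ 2 := by
      calc P ^ 2 * (s * y * K) = x * y * K := by rw [← hP]; ring
        _ = P * z * (P * z) := hr
        _ = P ^ 2 * z ^ 2 := by ring
    exact Nat.eq_of_mul_eq_mul_left (by positivity) this
  have h4 : s ∣ z := (hs.dvd_pow_iff_dvd (n := 2) two_ne_zero).1 ⟨y * K, by rw [← h3]; ring⟩
  obtain ⟨w, rfl⟩ := h4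
  have h5 : y * K = s * w ^ 2 := by
    have : s * (y * K) = s * (s * w ^ 2) := by
      calc s * (y * K) = s * y * K := by ring
        _ = (s * w) ^ 2 := h3
        _ = s * (s * w ^ 2) := by ring
    exact Nat.eq_of_mul_eq_mul_left hs0 this
  have h6 : s ∣ y * K := ⟨w ^ 2, h5⟩
  have h7 : s ∣ x * K := ⟨P ^ 2 * K, by rw [← hP]; ring⟩
  have h8 : s ∣ Nat.gcd x y * K := by
    rw [← Nat.gcd_mul_right]
    exact Nat.dvd_gcd h7 h6
  have h9 : 0 < Nat.gcd x y := Nat.gcd_pos_of_pos_left _ hx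
  refine ⟨s, P, hs0, ?_, by rw [← hP]; ring⟩
  calc s ≤ Nat.gcd x y * K := Nat.le_of_dvd (by positivity) h8
    _ ≤ G * K := Nat.mul_le_mul_right _ hG
    _ = K * G := by ring

end Pool.Agent.Helper89.TT
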