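import Pool.Agent.Helper89.TT.Basic

set_option autoImplicit false

open Finset

namespace Pool.Agent.Helper89.TT

theorem sq2_split {m₁ m₂ h₁ h₂ : ℕ} (hm : 0 < m₁) (hh : 0 < h₁) (e : m₁ * h₁ = m₂ * h₂) :
    ∃ a b g d : ℕ, 0 < a ∧ 0 < b ∧ 0 < g ∧ 0 < d ∧ Nat.Coprime b g ∧ m₁ = a * b ∧ m₂ = a * g ∧
      h₁ = g * d ∧ h₂ = b * d := by
  have hm2 : 0 < m₂ * h₂ := by rw [← e]; positivity
  have hm2' : 0 < m₂ := Nat.pos_of_mul_pos_right hm2
  have ha : 0 < Nat.gcd m₁ m₂ := Nat.gcd_pos_of_pos_left _ hm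
  obtain ⟨b, hb⟩ := Nat.gcd_dvd_left m₁ m₂
  obtain ⟨g, hg⟩ := Nat.gcd_dvd_right m₁ m₂
  have hbg : Nat.Coprime b g := by
    have h1 : Nat.gcd m₁ m₂ * Nat.gcd b g = Nat.gcd m₁ m₂ * 1 := by
      rw [← Nat.gcd_mul_left, ← hb, ← hg, mul_one]
    exact Nat.eq_of_mul_eq_mul_left ha h1
  generalize Nat.gcd m₁ m₂ = a at *
  subst hb hg
  have hb0 : 0 < b := Nat.pos_of_mul_pos_left hm
  have hg0 : 0 < g := Nat.pos_of_mul_pos_left hm2'
  have h2 : b * h₁ = g * h₂ := by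
    have : a * (b * h₁) = a * (g * h₂) := by
      calc a * (b * h₁) = a * b * h₁ := by ring
        _ = a * g * h₂ := e
        _ = a * (g * h₂) := by ring
    exact Nat.eq_of_mul_eq_mul_left ha this
  have h3 : g ∣ h₁ := hbg.symm.dvd_of_dvd_mul_left ⟨h₂, h2⟩
  obtain ⟨d, rfl⟩ := h3
  have h4 : h₂ = b * d := by
    have : g * h₂ = g * (b * d) := by rw [← h2]; ring
    exact Nat.eq_of_mul_eq_mul_left hg0 this
  exact ⟨a, b, g, d, ha, hb0, hg0, Nat.pos_of_mul_pos_left hh, hbg, rfl, rfl, rfl, h4⟩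

theorem sq2_sq {A X z : ℕ} (hA : 0 < A) (h : z ^ 2 = A ^ 2 * X) : IsSquare X := by
  have h1 : A ∣ z := (Nat.pow_dvd_pow_iff (n := 2) two_ne_zero).1 ⟨X, h⟩
  obtain ⟨w, rfl⟩ := h1
  refine ⟨w, ?_⟩
  have : A ^ 2 * X = A ^ 2 * (w * w) := by rw [← h]; ring
  exact Nat.eq_of_mul_eq_mul_left (by positivity) this

theorem sq2_mono {S S' x : ℕ} (h : SS S x) (hS : S ≤ S') : SS S' x := by
  obtain ⟨s, P, h1, h2, h3⟩ := h
  exact ⟨s, P, h1, h2.trans hS, h3⟩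

theorem sq2_ep {a b c k u v : ℕ} (hp : Par a b k u v) (e : a ^ 2 + b ^ 2 = c ^ 2) :
    c + b = k * v ^ 2 ∧ c = b + k * u ^ 2 := by
  obtain ⟨h1, h2, -, hk, hu, hv⟩ := hp
  have h3 : 2 * c = k * v ^ 2 + k * u ^ 2 := by
    have : (2 * c) ^ 2 = (k * v ^ 2 + k * u ^ 2) ^ 2 := by
      have e' : (2 * c) ^ 2 = 4 * (a ^ 2 + b ^ 2) := by rw [e]; ring
      rw [e', h1]
      zify at *
      have h2' : (2 : ℤ) * b = k * v ^ 2 - k * u ^ 2 := by linarith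
      have : (4 : ℤ) * b ^ 2 = (k * v ^ 2 - k * u ^ 2) ^ 2 := by rw [← h2']; ring
      calc (4 : ℤ) * (((k : ℤ) * u * v) ^ 2 + (b : ℤ) ^ 2) =
          4 * ((k : ℤ) * u * v) ^ 2 + 4 * (b : ℤ) ^ 2 := by ring
        _ = ((k : ℤ) * v ^ 2 + k * u ^ 2) ^ 2 := by rw [this]; ring
    exact Nat.pow_left_injective (n := 2) (by norm_num) this
  constructor <;> omega

theorem st_SQ2 (hEP : ST_EP) (hSQ1 : ST_SQ1) : ST_SQ2 := by
  intro K a b₁ b₂ c₁ c₂ ha hb₂ hlt e1 e2 g1 g2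
  have hb₁ : 0 < b₁ := by omega
  have hc1 : b₁ < c₁ := by
    have : b₁ ^ 2 < c₁ ^ 2 := by
      have : 0 < a ^ 2 := by positivity
      omega
    exact lt_of_pow_lt_pow_left₀ 2 (Nat.zero_le _) this
  have hc2 : b₂ < c₂ := by
    have : b₂ ^ 2 < c₂ ^ 2 := by
      have : 0 < a ^ 2 := by positivity
      omega
    exact lt_of_pow_lt_pow_left₀ 2 (Nat.zero_le _) this
  have hc : c₂ < c₁ := by
    have h1 : b₂ ^ 2 < b₁ ^ 2 := Nat.pow_lt_pow_left hlt (by norm_num)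
    exact lt_of_pow_lt_pow_left₀ 2 (Nat.zero_le _) (by omega)
  obtain ⟨d, hd⟩ : ∃ d, b₁ = b₂ + d := ⟨b₁ - b₂, by omega⟩
  obtain ⟨t, ht⟩ : ∃ t, c₁ = c₂ + t := ⟨c₁ - c₂, by omega⟩
  have hd0 : 0 < d := by omega
  have hsplit : (b₁ + b₂) * d = (c₁ + c₂) * t := by
    zify at *
    have h1 : (d : ℤ) = b₁ - b₂ := by linarith
    have h2 : (t : ℤ) = c₁ - c₂ := by linarith
    rw [h1, h2]
    linarith
  obtain ⟨h, m, l, h', hh, hm, hl, hh', hml, f1, f2, f3, f4⟩ :=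
    sq2_split (by omega) hd0 hsplit
  have hml' : m < l := by
    have : h * m < h * l := by rw [← f1, ← f2]; omega
    exact lt_of_mul_lt_mul_left this (Nat.zero_le _)
  have hhh : h' < h := by
    by_contra hc'
    push Not at hc'
    have h1 : l * h ≤ l * h' := Nat.mul_le_mul_left _ hc'
    have h2 : h * m < h * l := Nat.mul_lt_mul_of_pos_left hml' hh
    have h3 : l * h = h * l := Nat.mul_comm _ _
    omega
  obtain ⟨k₁, u₁, v₁, p1, -, k1d⟩ := hEP a b₁ ha hb₁ ⟨c₁, by rw [e1]; ring⟩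
  obtain ⟨k₂, u₂, v₂, p2, -, k2d⟩ := hEP a b₂ ha hb₂ ⟨c₂, by rw [e2]; ring⟩
  obtain ⟨q1, q2⟩ := sq2_ep p1 e1
  obtain ⟨q3, q4⟩ := sq2_ep p2 e2
  have ga : 0 < Nat.gcd a b₁ := Nat.gcd_pos_of_pos_left _ ha
  have ga2 : 0 < Nat.gcd a b₂ := Nat.gcd_pos_of_pos_left _ ha
  have hK : 1 ≤ K := by omega
  have hk1 : k₁ ≤ 2 * K := (Nat.le_of_dvd (by omega) k1d).trans (by omega)
  have hk2 : k₂ ≤ 2 * K := (Nat.le_of_dvd (by omega) k2d).trans (by omega)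
  have k10 : 0 < k₁ := p1.2.2.2.1
  have k20 : 0 < k₂ := p2.2.2.2.1
  have hkk : k₁ * k₂ ≤ 4 * K ^ 2 := by
    calc k₁ * k₂ ≤ 2 * K * (2 * K) := Nat.mul_le_mul hk1 hk2
      _ = 4 * K ^ 2 := by ring
  obtain ⟨e, he⟩ : ∃ e, h = h' + e := ⟨h - h', by omega⟩
  obtain ⟨f, hf⟩ : ∃ f, l = m + f := ⟨l - m, by omega⟩
  have he0 : 0 < e := by omega
  have hf0 : 0 < f := by omega
  -- the four products
  have r1 : 2 * (k₁ * v₁ ^ 2) = (l + m) * (h + h') := by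
    have : (l + m) * (h + h') = h * l + l * h' + (h * m + m * h') := by ring
    rw [this, ← f1, ← f2, ← f3, ← f4, ← q1]; omega
  have r2 : 2 * (k₂ * v₂ ^ 2) = (l + m) * e := by
    have h1 : (l + m) * h = (l + m) * h' + (l + m) * e := by rw [he]; ring
    have h2 : (l + m) * h = h * l + h * m := by ring
    have h3 : (l + m) * h' = l * h' + m * h' := by ring
    rw [h2, h3, ← f1, ← f2, ← f3, ← f4] at h1
    rw [← q3]; omega
  have r3 : 2 * (k₁ * u₁ ^ 2) = f * e := by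
    have h1 : l * h + m * h' = m * h + l * h' + f * e := by rw [he, hf]; ring
    have h2 : l * h = h * l := by ring
    have h3 : m * h = h * m := by ring
    rw [h2, h3, ← f1, ← f2, ← f3, ← f4] at h1
    omega
  have r4 : 2 * (k₂ * u₂ ^ 2) = f * (h + h') := by
    have h1 : l * h + l * h' = m * h + m * h' + f * (h + h') := by rw [hf]; ring
    have h2 : l * h = h * l := by ring
    have h3 : m * h = h * m := by ring
    rw [h2, h3, ← f1, ← f2, ← f3, ← f4] at h1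
    omega
  have s1 : IsSquare ((l + m) * f * (k₁ * k₂)) := by
    refine sq2_sq (A := h + h') (z := 2 * k₁ * k₂ * v₁ * u₂) (by omega) ?_
    calc (2 * k₁ * k₂ * v₁ * u₂) ^ 2 = 2 * (k₁ * v₁ ^ 2) * (2 * (k₂ * u₂ ^ 2)) * (k₁ * k₂) := by ring
      _ = (h + h') ^ 2 * ((l + m) * f * (k₁ * k₂)) := by rw [r1, r4]; ring
  have s2 : IsSquare ((h + h') * e * (k₁ * k₂)) := by
    refine sq2_sq (A := l + m) (z := 2 * k₁ * k₂ * v₁ * v₂) (by omega) ?_
    calc (2 * k₁ * k₂ * v₁ * v₂) ^ 2 = 2 * (k₁ * v₁ ^ 2) * (2 * (k₂ * v₂ ^ 2)) * (k₁ * k₂) := by ring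
      _ = (l + m) ^ 2 * ((h + h') * e * (k₁ * k₂)) := by rw [r1, r2]; ring
  have t1 : Nat.gcd (l + m) f ≤ 2 := by
    have h1 := Nat.gcd_dvd_left (l + m) f
    have h2 := Nat.gcd_dvd_right (l + m) f
    have h3 : Nat.gcd (l + m) f ∣ 2 * l := by
      have : 2 * l = (l + m) + f := by omega
      rw [this]; exact Nat.dvd_add h1 h2
    have h4 : Nat.gcd (l + m) f ∣ 2 * m := by
      have h5 : l + m = 2 * m + f := by omega
      rw [h5] at h1 ⊢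
      exact (Nat.dvd_add_left (Nat.gcd_dvd_right _ _)).1 h1
    have h6 := Nat.dvd_gcd h4 h3
    rw [Nat.gcd_mul_left, hml.gcd_eq_one] at h6
    exact Nat.le_of_dvd (by norm_num) h6
  have t0 : Nat.gcd h h' ≤ 2 * K := by
    have h1 := Nat.gcd_dvd_left h h'
    have h2 := Nat.gcd_dvd_right h h'
    have h3 : Nat.gcd h h' ∣ 2 * b₁ := by
      have : 2 * b₁ = h * m + l * h' := by rw [← f1, ← f3]; omega
      rw [this]
      exact Nat.dvd_add (h1.mul_right _) (h2.mul_left _)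
    have h4 : Nat.gcd h h' ∣ 2 * c₁ := by
      have : 2 * c₁ = h * l + m * h' := by rw [← f2, ← f4]; omega
      rw [this]
      exact Nat.dvd_add (h1.mul_right _) (h2.mul_left _)
    have h5 : (Nat.gcd h h') ^ 2 ∣ (2 * a) ^ 2 := by
      have h6 : (2 * a) ^ 2 + (2 * b₁) ^ 2 = (2 * c₁) ^ 2 := by
        calc (2 * a) ^ 2 + (2 * b₁) ^ 2 = 4 * (a ^ 2 + b₁ ^ 2) := by ring
          _ = (2 * c₁) ^ 2 := by rw [e1]; ring
      have h7 := pow_dvd_pow_of_dvd h4 2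
      rw [← h6] at h7
      exact (Nat.dvd_add_left (pow_dvd_pow_of_dvd h3 2)).1 h7
    have h8 : Nat.gcd h h' ∣ 2 * a := (Nat.pow_dvd_pow_iff (n := 2) two_ne_zero).1 h5
    have h9 := Nat.dvd_gcd h8 h3
    rw [Nat.gcd_mul_left] at h9
    exact (Nat.le_of_dvd (by omega) h9).trans (by omega)
  have t2 : Nat.gcd (h + h') e ≤ 4 * K := by
    have h1 := Nat.gcd_dvd_left (h + h') e
    have h2 := Nat.gcd_dvd_right (h + h') e
    have h3 : Nat.gcd (h + h') e ∣ 2 * h := by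
      have : 2 * h = (h + h') + e := by omega
      rw [this]; exact Nat.dvd_add h1 h2
    have h4 : Nat.gcd (h + h') e ∣ 2 * h' := by
      have h5 : h + h' = 2 * h' + e := by omega
      rw [h5] at h1 ⊢
      exact (Nat.dvd_add_left (Nat.gcd_dvd_right _ _)).1 h1
    have h6 := Nat.dvd_gcd h3 h4
    rw [Nat.gcd_mul_left] at h6
    have h7 : 0 < Nat.gcd h h' := Nat.gcd_pos_of_pos_left _ hh
    exact (Nat.le_of_dvd (by omega) h6).trans (by omega)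
  have hkk0 : 0 < k₁ * k₂ := by positivity
  have z1 : SS (16 * K ^ 3) (l + m) := by
    refine sq2_mono (hSQ1 (l + m) f (k₁ * k₂) 2 (by omega) hf0 hkk0 s1 t1) ?_
    have : K ^ 2 ≤ K ^ 3 := Nat.pow_le_pow_right hK (by norm_num)
    omega
  have z2 : SS (16 * K ^ 3) f := by
    have s1' : IsSquare (f * (l + m) * (k₁ * k₂)) := by rw [Nat.mul_comm f (l + m)]; exact s1
    have t1' : Nat.gcd f (l + m) ≤ 2 := by rw [Nat.gcd_comm]; exact t1
    refine sq2_mono (hSQ1 f (l + m) (k₁ * k₂) 2 hf0 (by omega) hkk0 s1' t1') ?_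
    have : K ^ 2 ≤ K ^ 3 := Nat.pow_le_pow_right hK (by norm_num)
    omega
  have hbd : k₁ * k₂ * (4 * K) ≤ 16 * K ^ 3 := by
    calc k₁ * k₂ * (4 * K) ≤ 4 * K ^ 2 * (4 * K) := Nat.mul_le_mul_right _ hkk
      _ = 16 * K ^ 3 := by ring
  have z3 : SS (16 * K ^ 3) (h + h') :=
    sq2_mono (hSQ1 (h + h') e (k₁ * k₂) (4 * K) (by omega) he0 hkk0 s2 t2) hbd
  have z4 : SS (16 * K ^ 3) e := by
    have s2' : IsSquare (e * (h + h') * (k₁ * k₂)) := by rw [Nat.mul_comm e (h + h')]; exact s2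
    have t2' : Nat.gcd e (h + h') ≤ 4 * K := by rw [Nat.gcd_comm]; exact t2
    exact sq2_mono (hSQ1 e (h + h') (k₁ * k₂) (4 * K) he0 (by omega) hkk0 s2' t2') hbd
  have y1 : l - m = f := by omega
  have y2 : h - h' = e := by omega
  refine ⟨m, l, h, h', ⟨hm, hml', hh', hhh, hml, t0, z1, ?_, z3, ?_⟩, ?_, ?_, ?_, ?_⟩
  · rw [y1]; exact z2
  · rw [y2]; exact z4
  · rw [f1]; ring
  · rw [← f3]; exact hd
  · rw [f2]; ring
  · rw [← f4]; exact ht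

end Pool.Agent.Helper89.TT
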