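import Pool.Agent.Helper89.TT.Basic

set_option autoImplicit false

open Finset

namespace Pool.Agent.Helper89.TT

theorem tup_sum {N x y₁ y₂ c₁ c₂ : ℕ} (hx : x ≤ N) (h1 : y₁ ≤ N) (h2 : y₂ ≤ N)
    (e1 : x ^ 2 + y₁ ^ 2 = c₁ ^ 2) (e2 : x ^ 2 + y₂ ^ 2 = c₂ ^ 2) : c₁ + c₂ ≤ 3 * N := by
  by_contra hc
  push Not at hc
  have a0 : x ^ 2 ≤ N ^ 2 := Nat.pow_le_pow_left hx 2
  have a1 : y₁ ^ 2 ≤ N ^ 2 := Nat.pow_le_pow_left h1 2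
  have a2 : y₂ ^ 2 ≤ N ^ 2 := Nat.pow_le_pow_left h2 2
  have a3 : (3 * N + 1) ^ 2 ≤ (c₁ + c₂) ^ 2 := Nat.pow_le_pow_left hc 2
  zify at *
  nlinarith [sq_nonneg ((c₁ : ℤ) - c₂)]

theorem tup_lt {x x' y c c' : ℕ} (h : x < x') (e1 : x ^ 2 + y ^ 2 = c ^ 2)
    (e2 : x' ^ 2 + y ^ 2 = c' ^ 2) : c < c' := by
  have h1 : x ^ 2 < x' ^ 2 := Nat.pow_lt_pow_left h (by norm_num)
  exact lt_of_pow_lt_pow_left₀ 2 (Nat.zero_le _) (by omega)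

theorem tup_split {m₁ m₂ h₁ h₂ : ℕ} (hm : 0 < m₁) (hh : 0 < h₁) (e : m₁ * h₁ = m₂ * h₂) :
    ∃ a b g d : ℕ, 0 < a ∧ 0 < b ∧ 0 < g ∧ 0 < d ∧ Nat.Coprime b g ∧ m₁ = a * b ∧ m₂ = a * g ∧
      h₁ = g * d ∧ h₂ = b * d := by
  have hm2 : 0 < m₂ * h₂ := by rw [← e]; positivity
  have hm2' : 0 < m₂ := Nat.pos_of_mul_pos_right hm2
  have ha : 0 < Nat.gcd m₁ m₂ := Nat.gcd_pos_of_pos_left _ hm
  obtain ⟨b, hb⟩ := Nat.gcd_dvd_left m₁ m₂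
  obtain ⟨g, hg⟩ := Nat.gcd_dvd_right m₁ m₂
  have hbg : Nat.Coprime b g := by
    have h1 : Nat.gcd m₁ m₂ * Nat.gcd b g = Nat.gcd m₁ m₂ * 1 := by
      rw [← Nat.gcd_mul_left, ← hb, ← hg, mul_one]
    exact Nat.eq_of_mul_eq_mul_left ha h1
  generalize Nat.gcd m₁ m₂ = a at *
  subst hb hg
  have hb0 : 0 < b := Nat.pos_of_mul_pos_left hm
  have hg0 : 0 < g := Nat.pos_of_mul_pos_left hm2'
  have h2 : b * h₁ = g * h₂ := by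
    have : a * (b * h₁) = a * (g * h₂) := by
      calc a * (b * h₁) = a * b * h₁ := by ring
        _ = a * g * h₂ := e
        _ = a * (g * h₂) := by ring
    exact Nat.eq_of_mul_eq_mul_left ha this
  have h3 : g ∣ h₁ := hbg.symm.dvd_of_dvd_mul_left ⟨h₂, h2⟩
  obtain ⟨d, rfl⟩ := h3
  have h4 : h₂ = b * d := by
    have : g * h₂ = g * (b * d) := by rw [← h2]; ring
    exact Nat.eq_of_mul_eq_mul_left hg0 this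
  exact ⟨a, b, g, d, ha, hb0, hg0, Nat.pos_of_mul_pos_left hh, hbg, rfl, rfl, rfl, h4⟩

theorem tup_eq {x y₁ y₂ c₁ c₂ p q r s : ℕ} (e1 : x ^ 2 + y₁ ^ 2 = c₁ ^ 2)
    (e2 : x ^ 2 + y₂ ^ 2 = c₂ ^ 2) (h1 : y₁ + y₂ = p) (h2 : y₁ = y₂ + q) (h3 : c₁ + c₂ = r)
    (h4 : c₁ = c₂ + s) : 4 * x ^ 2 + p ^ 2 + q ^ 2 = r ^ 2 + s ^ 2 := by
  subst h1 h2 h3 h4
  zify at *
  nlinarith

theorem st_TUP (h1 : ST_SQ2) : ST_TUP := by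
  rintro N K Y x x' y₁ y₂ ⟨hx, hxN, hx', hxN', hy, hyN, hy', hyN', hxx, hyy, s1, s2, s3, s4⟩ hlt hY
    g1 g2 g3 g4
  obtain ⟨c11, e11⟩ := s1
  obtain ⟨c12, e12⟩ := s2
  obtain ⟨c21, e21⟩ := s3
  obtain ⟨c22, e22⟩ := s4
  rw [← sq] at e11 e12 e21 e22
  obtain ⟨m₁, l₁, h₁, k₁, ⟨a1, a2, a3, a4, a5, a6, a7, a8, a9, a10⟩, a11, a12, a13, a14⟩ :=
    h1 K x y₁ y₂ c11 c12 hx hy' hlt e11 e12 g1 g2
  obtain ⟨m₂, l₂, h₂, k₂, ⟨b1, b2, b3, b4, b5, b6, b7, b8, b9, b10⟩, b11, b12, b13, b14⟩ :=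
    h1 K x' y₁ y₂ c21 c22 hx' hy' hlt e21 e22 g3 g4
  obtain ⟨a, b, g, d, ha, hb, hg, hd, hbg, f1, f2, f3, f4⟩ :=
    tup_split (m₁ := m₁) (m₂ := m₂) (h₁ := h₁) (h₂ := h₂) a1 (by omega) (by rw [← a11, ← b11])
  obtain ⟨a', b', g', d', ha', hb', hg', hd', hbg', f1', f2', f3', f4'⟩ :=
    tup_split (m₁ := l₁) (m₂ := l₂) (h₁ := k₁) (h₂ := k₂) (by omega) a3 (by omega)
  have hne : c11 + c12 ≠ c21 + c22 := by
    rcases lt_or_gt_of_ne hxx with h | h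
    · have := tup_lt h e11 e21
      have := tup_lt h e12 e22
      omega
    · have := tup_lt h e21 e11
      have := tup_lt h e22 e12
      omega
  have t1 := tup_sum hxN hyN hyN' e11 e12
  have t2 := tup_sum hxN' hyN hyN' e21 e22
  have u1 := tup_eq e11 e12 a11 a12 a13 a14
  have u2 := tup_eq e21 e22 a11 a12 b13 b14
  have v1 : Y ≤ l₁ * k₁ := by omega
  have v2 : Y ≤ m₁ * h₁ := by omega
  have hne' : l₁ * h₁ ≠ l₂ * h₂ := by rw [← a13, ← b13]; exact hne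
  rw [a13] at t1
  rw [b13] at t2
  subst f1 f2 f3 f4 f1' f2' f3' f4'
  exact ⟨a, a', b, b', g, g', d, d', ⟨ha, hb, hg, hd', a5, b5, hbg, hbg', a2, b2, a4, b4, a7, a8,
    b7, b8, a9, a10, b9, b10, a6, b6, t1, t2, hne', v1, v2⟩, a11, a12, u1, u2⟩

end Pool.Agent.Helper89.TT
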